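import Pool.Agent.H566.KMs

set_option autoImplicit false

namespace Pool.Agent.H115.KM

open Finset
open Pool.Agent.H566.KM

theorem mem_Bo {N : ℕ} [NeZero N] (Λ : Finset (ZMod N)) (ρ : ℝ) (x : ZMod N) :
    x ∈ Bo Λ ρ ↔ ∀ l ∈ Λ, ‖ψ (l * x) - 1‖ ≤ ρ := by
  classical
  unfold Bo
  rw [Finset.mem_filter]
  exact ⟨fun h => h.2, fun h => ⟨Finset.mem_univ _, h⟩⟩

theorem Bo_mono {N : ℕ} [NeZero N] (Λ : Finset (ZMod N)) {ρ ρ' : ℝ} (h : ρ ≤ ρ') :
    Bo Λ ρ ⊆ Bo Λ ρ' := by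
  intro x hx
  rw [mem_Bo] at hx ⊢
  exact fun l hl => (hx l hl).trans h

theorem norm_small (w : ℂ) (ρ : ℝ) (hρ : 0 < ρ) (h1 : |w.re| ≤ 2 * ρ / 3)
    (h2 : |w.im| ≤ 2 * ρ / 3) : ‖w‖ ≤ ρ := by
  have e1 : w.re ^ 2 ≤ (2 * ρ / 3) ^ 2 := by
    rw [← sq_abs]
    exact pow_le_pow_left₀ (abs_nonneg _) h1 2
  have e2 : w.im ^ 2 ≤ (2 * ρ / 3) ^ 2 := by
    rw [← sq_abs]
    exact pow_le_pow_left₀ (abs_nonneg _) h2 2
  have e3 : ‖w‖ ^ 2 = w.re ^ 2 + w.im ^ 2 := by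
    rw [Complex.sq_norm, Complex.normSq_apply]
    ring
  have e4 : ‖w‖ ^ 2 ≤ ρ ^ 2 := by
    rw [e3]
    nlinarith [sq_nonneg ρ]
  exact le_of_sq_le_sq e4 hρ.le

theorem cell_mem (u ρ : ℝ) (hρ : 0 < ρ) (h : |u| ≤ 2 * ρ) :
    ⌊(u + 2 * ρ) / (2 * ρ / 3)⌋ ∈ Finset.Icc (0 : ℤ) 6 := by
  have hs : 0 < 2 * ρ / 3 := by positivity
  obtain ⟨h1, h2⟩ := abs_le.1 h
  rw [Finset.mem_Icc]
  constructor
  · apply Int.floor_nonneg.2
    apply div_nonneg _ hs.le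
    linarith
  · have h3 : (u + 2 * ρ) / (2 * ρ / 3) ≤ 6 := by
      rw [div_le_iff₀ hs]
      linarith
    have h4 : ⌊(u + 2 * ρ) / (2 * ρ / 3)⌋ ≤ ⌊(6 : ℝ)⌋ := Int.floor_le_floor h3
    have h5 : ⌊(6 : ℝ)⌋ = 6 := by
      have : ((6 : ℤ) : ℝ) = 6 := by norm_num
      rw [← this, Int.floor_intCast]
    rw [h5] at h4
    exact h4

theorem cell_eq (u v ρ : ℝ) (hρ : 0 < ρ)
    (h : ⌊(u + 2 * ρ) / (2 * ρ / 3)⌋ = ⌊(v + 2 * ρ) / (2 * ρ / 3)⌋) : |u - v| ≤ 2 * ρ / 3 := by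
  have hs : 0 < 2 * ρ / 3 := by positivity
  have h1 := Int.abs_sub_lt_one_of_floor_eq_floor h
  have h2 : (u + 2 * ρ) / (2 * ρ / 3) - (v + 2 * ρ) / (2 * ρ / 3) = (u - v) / (2 * ρ / 3) := by
    rw [← sub_div]
    congr 1
    ring
  rw [h2, abs_div, abs_of_pos hs, div_lt_iff₀ hs, one_mul] at h1
  exact h1.le

theorem t_DBL : S_DBL := by
  classical
  intro N _ Λ ρ hρ
  let c : ZMod N → (Λ → ℤ × ℤ) := fun x l =>
    (⌊((ψ ((l : ZMod N) * x) - 1).re + 2 * ρ) / (2 * ρ / 3)⌋,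
      ⌊((ψ ((l : ZMod N) * x) - 1).im + 2 * ρ) / (2 * ρ / 3)⌋)
  have h1 := Finset.card_le_mul_card_image (f := c) (Bo Λ (2 * ρ)) (Bo Λ ρ).card (by
    intro b hb
    obtain ⟨y, hy, hyb⟩ := Finset.mem_image.1 hb
    apply Finset.card_le_card_of_injOn (fun x => x - y)
    · intro x hx
      have hx' := Finset.mem_filter.1 (Finset.mem_coe.1 hx)
      apply Finset.mem_coe.2
      rw [mem_Bo]
      intro l hl
      have h2 : c x ⟨l, hl⟩ = c y ⟨l, hl⟩ := by rw [hx'.2, hyb]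
      have h3 := Prod.ext_iff.1 h2
      have h4 := cell_eq _ _ ρ hρ h3.1
      have h5 := cell_eq _ _ ρ hρ h3.2
      have h6 : ‖ψ (l * x) - ψ (l * y)‖ ≤ ρ := by
        apply norm_small _ ρ hρ
        · rw [Complex.sub_re]
          rw [Complex.sub_re, Complex.sub_re, sub_sub_sub_cancel_right] at h4
          exact h4
        · rw [Complex.sub_im]
          rw [Complex.sub_im, Complex.sub_im, sub_sub_sub_cancel_right] at h5
          exact h5
      have h7 : ψ (l * x) - ψ (l * y) = ψ (l * y) * (ψ (l * (x - y)) - 1) := by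
        have h8 : l * x = l * y + l * (x - y) := by ring
        have h9 : ψ (l * x) = ψ (l * y) * ψ (l * (x - y)) := by
          conv_lhs => rw [h8]
          exact AddChar.map_add_eq_mul _ _ _
        rw [h9]
        ring
      rw [h7, norm_mul, AddChar.norm_apply, one_mul] at h6
      exact h6
    · intro x _ x' _ h
      exact sub_left_injective h)
  have h2 : (Finset.image c (Bo Λ (2 * ρ))).card ≤ 81 ^ Λ.card := by
    have h3 : Finset.image c (Bo Λ (2 * ρ)) ⊆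
        Fintype.piFinset (fun _ : Λ => (Finset.Icc (0 : ℤ) 6) ×ˢ (Finset.Icc (0 : ℤ) 6)) := by
      intro b hb
      obtain ⟨y, hy, rfl⟩ := Finset.mem_image.1 hb
      rw [Fintype.mem_piFinset]
      intro l
      have hy' := (mem_Bo _ _ _).1 hy l l.2
      rw [Finset.mem_product]
      exact ⟨cell_mem _ ρ hρ ((Complex.abs_re_le_norm _).trans hy'),
        cell_mem _ ρ hρ ((Complex.abs_im_le_norm _).trans hy')⟩
    refine (Finset.card_le_card h3).trans ?_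
    rw [Fintype.card_piFinset, Finset.prod_const, Finset.card_univ, Fintype.card_coe,
      Finset.card_product]
    apply Nat.pow_le_pow_left
    simp
  calc (Bo Λ (2 * ρ)).card ≤ (Bo Λ ρ).card * (Finset.image c (Bo Λ (2 * ρ))).card := h1
    _ ≤ (Bo Λ ρ).card * 81 ^ Λ.card := Nat.mul_le_mul_left _ h2
    _ = 81 ^ Λ.card * (Bo Λ ρ).card := Nat.mul_comm _ _

theorem zero_mem_Bo {N : ℕ} [NeZero N] (Λ : Finset (ZMod N)) {ρ : ℝ} (h : 0 ≤ ρ) :
    (0 : ZMod N) ∈ Bo Λ ρ := by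
  rw [mem_Bo]
  intro l _
  have h1 : ψ (l * 0) = 1 := by
    rw [mul_zero]
    exact AddChar.map_zero_eq_one _
  rw [h1, sub_self, norm_zero]
  exact h

theorem t_REG (h : S_DBL) : S_REG := by
  classical
  intro N _ Λ ρ D hD hρ
  by_contra hcon
  push Not at hcon
  have hD0 : (0 : ℝ) < D := by exact_mod_cast hD
  have hD1 : (1 : ℝ) ≤ D := by exact_mod_cast hD
  obtain ⟨J, hJ⟩ : ∃ J : ℕ, J = 25 * D * (Λ.card + 1) := ⟨_, rfl⟩
  obtain ⟨κ, hκ⟩ : ∃ κ : ℝ, κ = 1 / (100 * D * (Λ.card + 1)) := ⟨_, rfl⟩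
  have hd0 : (0 : ℝ) ≤ (Λ.card : ℝ) := Nat.cast_nonneg _
  have hJr : (J : ℝ) = 25 * D * (Λ.card + 1) := by
    rw [hJ]
    push_cast
    ring
  have hJ0 : (0 : ℝ) < J := by
    rw [hJr]
    positivity
  have hκ0 : 0 < κ := by
    rw [hκ]
    positivity
  have hκJ : κ * (4 * J) = 1 := by
    rw [hκ, hJr]
    field_simp
    norm_num
  have hJ1 : (25 : ℝ) ≤ J := by
    rw [hJr]
    nlinarith
  have hκ1 : κ ≤ 1 / 100 := by
    nlinarith
  let r : ℕ → ℝ := fun j => ρ / 2 * (1 + j / J)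
  let b : ℕ → ℝ := fun j => ((Bo Λ ((1 - κ) * r j)).card : ℝ)
  have hr : ∀ j ≤ J, ρ / 2 ≤ r j ∧ r j ≤ ρ := by
    intro j hj
    have h1 : (0 : ℝ) ≤ (j : ℝ) / J := by positivity
    have h2 : (j : ℝ) / J ≤ 1 := by
      rw [div_le_one hJ0]
      exact_mod_cast hj
    constructor
    · change ρ / 2 ≤ ρ / 2 * (1 + j / J)
      nlinarith
    · change ρ / 2 * (1 + j / J) ≤ ρ
      nlinarith
  have hstep : ∀ j, j + 1 ≤ J → (1 + 1 / (D : ℝ)) * b j ≤ b (j + 1) := by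
    intro j hj
    have h1 := hcon (r j) (hr j (by omega)).1 (hr j (by omega)).2
    unfold Rg at h1
    rw [← hκ] at h1
    push Not at h1
    have h2 : (1 + κ) * r j ≤ (1 - κ) * r (j + 1) := by
      have h3 : r (j + 1) - r j = ρ / (2 * J) := by
        change ρ / 2 * (1 + ((j + 1 : ℕ) : ℝ) / J) - ρ / 2 * (1 + (j : ℝ) / J) = ρ / (2 * J)
        push_cast
        field_simp
        ring
      have h4 : κ * (r j + r (j + 1)) ≤ 2 * κ * ρ := by
        nlinarith [(hr j (by omega)).2, (hr (j + 1) hj).2]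
      have h5 : 2 * κ * ρ = ρ / (2 * J) := by
        rw [eq_div_iff (by positivity)]
        linear_combination ρ * hκJ
      nlinarith
    have h6 : ((Bo Λ ((1 + κ) * r j)).card : ℝ) ≤ b (j + 1) := by
      change ((Bo Λ ((1 + κ) * r j)).card : ℝ) ≤ ((Bo Λ ((1 - κ) * r (j + 1))).card : ℝ)
      exact_mod_cast Finset.card_le_card (Bo_mono Λ h2)
    have h7 : (D : ℝ) * ((1 + 1 / (D : ℝ)) * b j) = (D + 1) * b j := by
      field_simp
    have h8 : (D : ℝ) * ((1 + 1 / (D : ℝ)) * b j) ≤ D * b (j + 1) := by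
      rw [h7]
      exact h1.le.trans (mul_le_mul_of_nonneg_left h6 hD0.le)
    exact le_of_mul_le_mul_left h8 hD0
  have hind : ∀ j ≤ J, (1 + 1 / (D : ℝ)) ^ j * b 0 ≤ b j := by
    intro j
    induction j with
    | zero => intro _; rw [pow_zero, one_mul]
    | succ j ih =>
      intro hj
      have h1 := ih (by omega)
      have h2 := hstep j hj
      calc (1 + 1 / (D : ℝ)) ^ (j + 1) * b 0 = (1 + 1 / (D : ℝ)) * ((1 + 1 / (D : ℝ)) ^ j * b 0) := by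
            ring
        _ ≤ (1 + 1 / (D : ℝ)) * b j := mul_le_mul_of_nonneg_left h1 (by positivity)
        _ ≤ b (j + 1) := h2
  have hb0 : 1 ≤ b 0 := by
    have h1 : 0 < (Bo Λ ((1 - κ) * r 0)).card := by
      apply Finset.card_pos.2
      refine ⟨0, zero_mem_Bo Λ ?_⟩
      have h2 := (hr 0 (Nat.zero_le _)).1
      apply mul_nonneg
      · linarith
      · linarith
    have h2 : 1 ≤ (Bo Λ ((1 - κ) * r 0)).card := h1
    change (1 : ℝ) ≤ ((Bo Λ ((1 - κ) * r 0)).card : ℝ)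
    exact_mod_cast h2
  have hbJ : b J ≤ 81 ^ Λ.card * b 0 := by
    have hr0 : r 0 = ρ / 2 := by
      change ρ / 2 * (1 + ((0 : ℕ) : ℝ) / J) = ρ / 2
      rw [Nat.cast_zero, zero_div, add_zero, mul_one]
    have hrJ : r J = ρ := by
      change ρ / 2 * (1 + (J : ℝ) / J) = ρ
      rw [div_self hJ0.ne']
      ring
    have h1 := h N Λ ((1 - κ) * r 0) (by
      rw [hr0]
      apply mul_pos
      · linarith
      · linarith)
    have h2 : 2 * ((1 - κ) * r 0) = (1 - κ) * r J := by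
      rw [hr0, hrJ]
      ring
    rw [h2] at h1
    have h3 : (((Bo Λ ((1 - κ) * r J)).card : ℕ) : ℝ) ≤
        ((81 ^ Λ.card * (Bo Λ ((1 - κ) * r 0)).card : ℕ) : ℝ) := by exact_mod_cast h1
    rw [Nat.cast_mul, Nat.cast_pow, Nat.cast_ofNat] at h3
    exact h3
  have h2D : (2 : ℝ) ≤ (1 + 1 / (D : ℝ)) ^ D := by
    have h1 := one_add_mul_le_pow (a := 1 / (D : ℝ)) (by
      have : (0 : ℝ) < 1 / D := by positivity
      linarith) D
    have h2 : (D : ℝ) * (1 / D) = 1 := by field_simp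
    rw [h2] at h1
    linarith
  have h2J : (2 : ℝ) ^ (25 * (Λ.card + 1)) ≤ (1 + 1 / (D : ℝ)) ^ J := by
    have h1 : J = D * (25 * (Λ.card + 1)) := by
      rw [hJ]
      ring
    rw [h1, pow_mul (1 + 1 / (D : ℝ))]
    exact pow_le_pow_left₀ (by norm_num) h2D _
  have hfin : (2 : ℝ) ^ (25 * (Λ.card + 1)) * b 0 ≤ 81 ^ Λ.card * b 0 :=
    (mul_le_mul_of_nonneg_right h2J (by linarith)).trans ((hind J le_rfl).trans hbJ)
  have hfin2 : (2 : ℝ) ^ (25 * (Λ.card + 1)) ≤ 81 ^ Λ.card :=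
    le_of_mul_le_mul_right hfin (by linarith)
  have hfin3 : (81 : ℝ) ^ Λ.card < 2 ^ (25 * (Λ.card + 1)) := by
    calc (81 : ℝ) ^ Λ.card ≤ (2 ^ 25) ^ Λ.card := pow_le_pow_left₀ (by norm_num) (by norm_num) _
      _ = 2 ^ (25 * Λ.card) := by rw [← pow_mul]
      _ < 2 ^ (25 * (Λ.card + 1)) := pow_lt_pow_right₀ (by norm_num) (by omega)
  linarith

end Pool.Agent.H115.KM
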